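import Pool.Agent.helper88.RL.SpecL

set_option autoImplicit false

namespace Pool.Agent.RL

open Finset Pool.Agent.helper3.FT Pool.Agent.T6 Pool.Agent.RF

theorem NBC_add (K a b z w : OO) : FF K (a + b) (z + w) = FF K a z + FF K b w := by
  unfold FF
  rw [star_add]
  ring

theorem NBC_sub (K a b z w : OO) : FF K (a - b) (z - w) = FF K a z - FF K b w := by
  unfold FF
  rw [star_sub]
  ring

theorem NBC_nat (K a z : OO) (m : ℕ) : FF K ((m : OO) * a) ((m : OO) * z) = (m : OO) * FF K a z := by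
  unfold FF
  rw [star_mul', star_natCast]
  ring

theorem NBC_r5 : r5 * r5 = 5 := by
  ext
  · simp [r5]
    rfl
  · simp [r5]
    rfl

theorem NBC_K (r : ℤ) : (⟨r, 1⟩ : OO) - star (⟨r, 1⟩ : OO) = r5 := by
  ext
  · simp [r5]
  · simp [r5]

/-- the map is onto modulo `m` -/
theorem NBC_surj (K t : OO) (hK : K - star K = r5) (u m : ℤ) (hu : m ∣ 5 * u - 1) :
    ∃ a z : OO, (m : OO) ∣ FF K a z - t := by
  obtain ⟨k, hk⟩ := hu
  have hk' : (5 : OO) * (u : OO) - 1 = (m : OO) * (k : OO) := by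
    have := congrArg (fun n : ℤ => (n : OO)) hk
    push_cast at this
    exact this
  set K' : OO := star K with hK'
  set X : OO := r5 * (K ^ 4 - 7 * K ^ 3 * K' + 21 * K ^ 2 * K' ^ 2 - 35 * K * K' ^ 3 + 35 * K' ^ 4) with hX
  set Y : OO := r5 * (-21 * K ^ 2 + 7 * K * K' - K' ^ 2) with hY
  have hXY : X * K ^ 3 + Y * K' ^ 5 = 625 := by
    have h1 : X * K ^ 3 + Y * K' ^ 5 = r5 * (K - K') ^ 7 := by
      rw [hX, hY]
      ring
    rw [h1, hK]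
    calc r5 * r5 ^ 7 = (r5 * r5) ^ 4 := by ring
      _ = 625 := by
          rw [NBC_r5]
          norm_num
  set w' : OO := -t * (u : OO) ^ 4 * Y with hw'
  have hz : star (K ^ 2 * star w') = K' ^ 2 * w' := by
    rw [star_mul', star_pow, star_star]
  refine ⟨(u : OO) * (t * (u : OO) ^ 4 * X - 2 * star ph * star w' * K' ^ 2), K ^ 2 * star w',
    (k : OO) * ((t * (u : OO) ^ 4 * X - 2 * star ph * star w' * K' ^ 2) * K ^ 3 +
      t * (125 * (u : OO) ^ 3 + 25 * (u : OO) ^ 2 + 5 * (u : OO) + 1)), ?_⟩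
  rw [← mul_assoc (m : OO) (k : OO) _, ← hk']
  unfold FF
  rw [hz, ← hK', hw']
  generalize star (-t * (u : OO) ^ 4 * Y) = w
  generalize star ph = p
  linear_combination (t * (u : OO) ^ 4) * hXY

theorem NBC_box {m : ℕ} (hm : 1 ≤ m) {K : OO} (hK : K - star K = r5) (h5 : Nat.Coprime m 5) (t : OO) :
    ∃ w : V4, (0 ≤ w.1 ∧ w.1 < m) ∧ (0 ≤ w.2.1 ∧ w.2.1 < m) ∧ (0 ≤ w.2.2.1 ∧ w.2.2.1 < m) ∧ (0 ≤ w.2.2.2 ∧ w.2.2.2 < m) ∧
      (m : OO) ∣ FF K (va4 w) (vz4 w) - t := by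
  have hm0 : (m : ℤ) ≠ 0 := by omega
  have hmp : (0 : ℤ) < m := by omega
  obtain ⟨u, hu⟩ : ∃ u : ℤ, (m : ℤ) ∣ 5 * u - 1 := by
    have h1 : IsCoprime (5 : ℤ) (m : ℤ) := by
      have := Nat.isCoprime_iff_coprime.2 h5.symm
      exact_mod_cast this
    obtain ⟨x, y, hxy⟩ := h1
    exact ⟨x, -y, by linarith⟩
  obtain ⟨a, z, h⟩ := NBC_surj K t hK u m hu
  refine ⟨(a.re % m, a.im % m, z.re % m, z.im % m), ⟨Int.emod_nonneg _ hm0, Int.emod_lt_of_pos _ hmp⟩,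
    ⟨Int.emod_nonneg _ hm0, Int.emod_lt_of_pos _ hmp⟩, ⟨Int.emod_nonneg _ hm0, Int.emod_lt_of_pos _ hmp⟩,
    ⟨Int.emod_nonneg _ hm0, Int.emod_lt_of_pos _ hmp⟩, ?_⟩
  have e : ∀ x : OO, x - (⟨x.re % m, x.im % m⟩ : OO) = (m : OO) * (⟨x.re / m, x.im / m⟩ : OO) := by
    intro x
    have h1 := Int.emod_add_mul_ediv x.re m
    have h2 := Int.emod_add_mul_ediv x.im m
    ext
    · simp
      linarith
    · simp
      linarith
  show (m : OO) ∣ FF K (⟨a.re % m, a.im % m⟩ : OO) (⟨z.re % m, z.im % m⟩ : OO) - t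
  have h1 : FF K a z - FF K (⟨a.re % m, a.im % m⟩ : OO) (⟨z.re % m, z.im % m⟩ : OO) =
      (m : OO) * FF K (⟨a.re / m, a.im / m⟩ : OO) (⟨z.re / m, z.im / m⟩ : OO) := by
    rw [← NBC_sub, e, e, NBC_nat]
  have h2 : FF K (⟨a.re % m, a.im % m⟩ : OO) (⟨z.re % m, z.im % m⟩ : OO) - t =
      (FF K a z - t) - (m : OO) * FF K (⟨a.re / m, a.im / m⟩ : OO) (⟨z.re / m, z.im / m⟩ : OO) := by
    rw [← h1]
    ring
  rw [h2]
  have h' : (m : OO) ∣ FF K a z - t := by exact_mod_cast h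
  exact dvd_sub h' (dvd_mul_right _ _)

theorem NBC_eq {m : ℕ} {i j i' j' : ℕ} (hi : i < m) (hj : j < m) (hi' : i' < m) (hj' : j' < m)
    (h : (m : OO) ∣ (⟨i, j⟩ : OO) - (⟨i', j'⟩ : OO)) : i = i' ∧ j = j' := by
  obtain ⟨x, hx⟩ := h
  have h1 := congrArg QuadraticAlgebra.re hx
  have h2 := congrArg QuadraticAlgebra.im hx
  simp at h1 h2
  have h3 : (m : ℤ) ∣ (i : ℤ) - i' := ⟨_, h1⟩
  have h4 : (m : ℤ) ∣ (j : ℤ) - j' := ⟨_, h2⟩
  have h5 := Int.eq_zero_of_abs_lt_dvd h3 (by rw [abs_lt]; constructor <;> omega)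
  have h6 := Int.eq_zero_of_abs_lt_dvd h4 (by rw [abs_lt]; constructor <;> omega)
  omega

/-- **Row NBC** -/
theorem NBC (hN2 : N2_stmt) : NBC_stmt := by
  classical
  intro b V m r F hb hm h5 hV hF
  set K : OO := ⟨(r : ℤ), 1⟩ with hKdef
  have hK : K - star K = r5 := NBC_K r
  have hmr : (1 : ℝ) ≤ m := by exact_mod_cast hm
  have hb5 : 1 ≤ b ^ 5 := one_le_pow₀ hb
  have hmV : (m : ℝ) ≤ V := by nlinarith
  have hV0 : 0 < V := by linarith
  have hrep : ∀ t : ℕ × ℕ, ∃ w : V4, (0 ≤ w.1 ∧ w.1 < m) ∧ (0 ≤ w.2.1 ∧ w.2.1 < m) ∧ (0 ≤ w.2.2.1 ∧ w.2.2.1 < m) ∧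
      (0 ≤ w.2.2.2 ∧ w.2.2.2 < m) ∧ (m : OO) ∣ FF K (va4 w) (vz4 w) - (⟨t.1, t.2⟩ : OO) := fun t =>
    NBC_box hm hK h5 _
  choose rep hrep using hrep
  set B : Finset ℤ := Icc (-⌊V⌋) (⌊V⌋ + m - 1) with hB
  have hadd : ∀ v w : V4, FF K (va4 (v + w)) (vz4 (v + w)) = FF K (va4 v) (vz4 v) + FF K (va4 w) (vz4 w) := by
    intro v w
    exact NBC_add K (va4 v) (va4 w) (vz4 v) (vz4 w)
  have hcard : (F ×ˢ (range m ×ˢ range m)).card ≤ (B ×ˢ B ×ˢ B ×ˢ B).card := by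
    refine card_le_card_of_injOn (fun x => x.1 + rep x.2) ?_ ?_
    · intro x hx
      rw [mem_coe, mem_product] at hx
      obtain ⟨h1, h2, h3, h4, -⟩ := hrep x.2
      have hn := (hF x.1 hx.1).2
      unfold nrm at hn
      rw [max_le_iff, max_le_iff, max_le_iff] at hn
      obtain ⟨⟨n1, n2⟩, n3, n4⟩ := hn
      have hc : ∀ k : ℤ, |(k : ℝ)| ≤ V → -⌊V⌋ ≤ k ∧ k ≤ ⌊V⌋ := by
        intro k hk
        rw [abs_le] at hk
        have h6 : k ≤ ⌊V⌋ := Int.le_floor.2 hk.2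
        have h7 : -k ≤ ⌊V⌋ := Int.le_floor.2 (by push_cast; linarith)
        exact ⟨by linarith, h6⟩
      have c1 := hc _ n1
      have c2 := hc _ n2
      have c3 := hc _ n3
      have c4 := hc _ n4
      rw [mem_coe, mem_product, mem_product, mem_product]
      refine ⟨?_, ?_, ?_, ?_⟩
      · show x.1.1 + (rep x.2).1 ∈ B
        rw [hB, mem_Icc]
        constructor <;> linarith [h1.1, h1.2, c1.1, c1.2]
      · show x.1.2.1 + (rep x.2).2.1 ∈ B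
        rw [hB, mem_Icc]
        constructor <;> linarith [h2.1, h2.2, c2.1, c2.2]
      · show x.1.2.2.1 + (rep x.2).2.2.1 ∈ B
        rw [hB, mem_Icc]
        constructor <;> linarith [h3.1, h3.2, c3.1, c3.2]
      · show x.1.2.2.2 + (rep x.2).2.2.2 ∈ B
        rw [hB, mem_Icc]
        constructor <;> linarith [h4.1, h4.2, c4.1, c4.2]
    · intro x hx y hy hxy
      rw [mem_coe, mem_product, mem_product, mem_range, mem_range] at hx hy
      have hxy' : x.1 + rep x.2 = y.1 + rep y.2 := hxy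
      have k1 : ∀ x : V4 × ℕ × ℕ, x.1 ∈ F → (m : OO) ∣ FF K (va4 (x.1 + rep x.2)) (vz4 (x.1 + rep x.2)) - (⟨x.2.1, x.2.2⟩ : OO) := by
        intro x hx
        have h1 : (m : OO) ∣ FF K (va4 x.1) (vz4 x.1) := (hF x.1 hx).1
        have h2 := (hrep x.2).2.2.2.2
        rw [hadd, add_sub_assoc]
        exact dvd_add h1 h2
      have k2 := k1 x hx.1
      have k3 := k1 y hy.1
      rw [hxy'] at k2
      have k4 : (m : OO) ∣ (⟨x.2.1, x.2.2⟩ : OO) - (⟨y.2.1, y.2.2⟩ : OO) := by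
        have := dvd_sub k3 k2
        rwa [sub_sub_sub_cancel_left] at this
      obtain ⟨e1, e2⟩ := NBC_eq hx.2.1 hx.2.2 hy.2.1 hy.2.2 k4
      have e3 : x.2 = y.2 := Prod.ext e1 e2
      rw [e3] at hxy'
      exact Prod.ext (add_right_cancel hxy') e3
  rw [card_product, card_product, card_range, card_product, card_product, card_product] at hcard
  have hBc : (B.card : ℝ) ≤ 3 * V := by
    rw [hB, Int.card_Icc]
    have hf : 0 ≤ ⌊V⌋ := Int.floor_nonneg.2 hV0.le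
    have h1 : (((⌊V⌋ + m - 1 + 1 - -⌊V⌋).toNat : ℕ) : ℤ) = 2 * ⌊V⌋ + m := by omega
    have h2 : (((⌊V⌋ + m - 1 + 1 - -⌊V⌋).toNat : ℕ) : ℝ) = 2 * (⌊V⌋ : ℝ) + m := by
      exact_mod_cast h1
    rw [h2]
    have := Int.floor_le V
    linarith
  have h6 : (F.card : ℝ) * ((m : ℝ) * m) ≤ (3 * V) ^ 4 := by
    calc (F.card : ℝ) * ((m : ℝ) * m) ≤ (B.card : ℝ) * (B.card * (B.card * B.card)) := by exact_mod_cast hcard
      _ = (B.card : ℝ) ^ 4 := by ring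
      _ ≤ (3 * V) ^ 4 := pow_le_pow_left₀ (by positivity) hBc 4
  rw [le_div_iff₀ (by positivity)]
  calc (F.card : ℝ) * (m : ℝ) ^ 2 = (F.card : ℝ) * ((m : ℝ) * m) := by ring
    _ ≤ (3 * V) ^ 4 := h6
    _ = 81 * V ^ 4 := by ring

end Pool.Agent.RL
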